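import Pool.Agent.N874.PP.Lat
import Pool.Agent.TH115.SD.Hensel

/-!
# The completion of `K` at a prime of `k[X]`: approximation and squares

Project PP (helper874); this file by helper352.
-/

set_option autoImplicit false
set_option linter.all false

open Polynomial IsDedekindDomain WithZero Filter Topology
open scoped Classical

namespace Pool.Agent.N352.PP

section gen

variable {R F : Type} [CommRing R] [IsDedekindDomain R] [Field F] [Algebra R F]
  [IsFractionRing R F] (v : HeightOneSpectrum R)

/-- The valuation of the completion. -/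
noncomputable def vv : Valuation (v.adicCompletion F) (WithZero (Multiplicative ℤ)) :=
  (Valued.v (R := v.adicCompletion F) (Γ₀ := WithZero (Multiplicative ℤ)))

theorem vv_coe (x : F) : vv v (algebraMap F (v.adicCompletion F) x) = v.valuation F x :=
  HeightOneSpectrum.adicCompletion.valued_coe F v x

/-- Elements of the completion are close to elements of the field. -/
theorem dense_F (x : v.adicCompletion F) {g : F} (hg : g ≠ 0) :
    ∃ f : F, vv v (x - algebraMap F (v.adicCompletion F) f) < v.valuation F g := by
  let g' : v.adicCompletion F := algebraMap F (v.adicCompletion F) g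
  have hg' : g' ≠ 0 := (_root_.map_ne_zero _).2 hg
  have h1 : {y : v.adicCompletion F | (Valued.v (R := v.adicCompletion F)).restrict (y - x) <
      (Units.mk0 ((Valued.v (R := v.adicCompletion F)).restrict g') (by simpa using hg')).1} ∈
      𝓝 x := by
    rw [Valued.mem_nhds]
    exact ⟨_, subset_rfl⟩
  obtain ⟨f, hf⟩ := (HeightOneSpectrum.denseRange_algebraMap F v).mem_nhds h1
  refine ⟨f, ?_⟩
  have h2 : (Valued.v (R := v.adicCompletion F)).restrict (algebraMap F _ f - x) <
    (Valued.v (R := v.adicCompletion F)).restrict g' := hf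
  rw [Valuation.restrict_lt_iff] at h2
  have h3 : Valued.v (R := v.adicCompletion F) g' = v.valuation F g :=
    HeightOneSpectrum.adicCompletion.valued_coe F v g
  rw [h3, Valuation.map_sub_swap] at h2
  exact h2

/-- Integral elements of the completion are congruent to elements of `R`. -/
theorem dense_R (x : v.adicCompletion F) (hx : vv v x ≤ 1) :
    ∃ r : R, vv v (x - algebraMap F (v.adicCompletion F) (algebraMap R F r)) < 1 := by
  obtain ⟨f, hf⟩ := dense_F v x (g := 1) one_ne_zero
  rw [map_one] at hf
  have h1 : v.valuation F f ≤ 1 := by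
    rw [← vv_coe]
    have e : algebraMap F (v.adicCompletion F) f =
        x - (x - algebraMap F (v.adicCompletion F) f) := by ring
    rw [e]
    exact (Valuation.map_sub _ _ _).trans (max_le hx hf.le)
  obtain ⟨a, ha⟩ := v.exists_valuation_sub_lt_of_integer (K := F) h1 1
  refine ⟨a, ?_⟩
  have e : x - algebraMap F (v.adicCompletion F) (algebraMap R F a) =
      (x - algebraMap F (v.adicCompletion F) f) -
        algebraMap F (v.adicCompletion F) (algebraMap R F a - f) := by
    rw [map_sub]; ring
  rw [e]
  refine lt_of_le_of_lt (Valuation.map_sub _ _ _) (max_lt hf ?_)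
  rw [vv_coe]
  exact ha

theorem sqrt_one (h2 : v.valuation F 2 = 1) (x : v.adicCompletion F) (hx : vv v (x - 1) < 1) :
    ∃ z, z ^ 2 = x ∧ vv v (z - 1) < 1 := by
  have h3 : Valued.v (R := v.adicCompletion F) (2 : v.adicCompletion F) = 1 := by
    have h4 := vv_coe (F := F) v 2
    rw [h2, map_ofNat] at h4
    exact h4
  exact Pool.Agent.TH115.GD.sqrt_one_unit (L := v.adicCompletion F) h3 x hx

end gen

section pol

variable {k K : Type} [Field k] [Field K] [Algebra k[X] K] [IsFractionRing k[X] K]
  {P : k[X]} {v : HeightOneSpectrum k[X]}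

/-- A polynomial as an element of the completion. -/
noncomputable def em (K : Type) [Field K] [Algebra k[X] K] [IsFractionRing k[X] K]
    (v : HeightOneSpectrum k[X]) : k[X] →+* v.adicCompletion K :=
  (algebraMap K (v.adicCompletion K)).comp (algebraMap k[X] K)

theorem vv_em (r : k[X]) : vv v (em K v r) = v.valuation K (algebraMap k[X] K r) :=
  vv_coe v _

theorem vv_em_le (r : k[X]) : vv v (em K v r) ≤ 1 := by
  rw [vv_em]
  exact v.valuation_le_one r

theorem vv_em_lt (hv : v.asIdeal = Ideal.span {P}) (r : k[X]) : vv v (em K v r) < 1 ↔ P ∣ r := by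
  rw [vv_em, HeightOneSpectrum.valuation_lt_one_iff_mem, hv, Ideal.mem_span_singleton]

theorem vv_em_one (hv : v.asIdeal = Ideal.span {P}) (r : k[X]) :
    vv v (em K v r) = 1 ↔ ¬ P ∣ r := by
  rw [← vv_em_lt (K := K) hv, not_lt]
  constructor
  · intro h; exact h.symm.le
  · intro h; exact le_antisymm (vv_em_le r) h

theorem vv_em_P (hP : P ≠ 0) (hv : v.asIdeal = Ideal.span {P}) :
    vv v (em K v P) = exp (-1 : ℤ) := by
  rw [vv_em, HeightOneSpectrum.valuation_of_algebraMap]
  exact v.intValuation_singleton hP hv

theorem val_two (hv : v.asIdeal = Ideal.span {P}) (hP : Irreducible P) (h2 : (2 : k) ≠ 0) :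
    v.valuation K 2 = 1 := by
  have h : vv v (em K v 2) = 1 := by
    rw [vv_em_one hv]
    intro h
    have h3 : IsUnit (2 : k[X]) := by
      have e : (2 : k[X]) = C 2 := (map_ofNat C 2).symm
      rw [e, isUnit_C]
      exact isUnit_iff_ne_zero.2 h2
    exact hP.not_isUnit (isUnit_of_dvd_unit h h3)
  rw [vv_em, map_ofNat] at h
  exact h

/-- A unit which is a square modulo `P` is a square in the completion. -/
theorem sq_of_res (hP : Irreducible P) (hv : v.asIdeal = Ideal.span {P}) (h2 : (2 : k) ≠ 0)
    {g z : k[X]} (hg : ¬ P ∣ g) (hz : P ∣ z ^ 2 - g) : ∃ w : v.adicCompletion K,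
      w ^ 2 = em K v g ∧ vv v w = 1 := by
  have hz0 : ¬ P ∣ z := by
    intro h
    apply hg
    have h3 : P ∣ z ^ 2 := dvd_pow h two_ne_zero
    have := dvd_sub h3 hz
    simpa using this
  have hz1 : vv v (em K v z) = 1 := (vv_em_one hv z).2 hz0
  have hzn : em K v z ≠ 0 := by
    intro h
    rw [h, map_zero] at hz1
    exact zero_ne_one hz1
  obtain ⟨w, hw, hw1⟩ := sqrt_one v (val_two hv hP h2) (em K v g / em K v z ^ 2) (by
    have e : em K v g / em K v z ^ 2 - 1 = - em K v (z ^ 2 - g) / em K v z ^ 2 := by
      rw [map_sub, map_pow]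
      field_simp
      ring
    rw [e, map_div₀, Valuation.map_neg, map_pow, hz1, one_pow, div_one]
    exact (vv_em_lt hv _).2 hz)
  refine ⟨w * em K v z, ?_, ?_⟩
  · rw [mul_pow, hw]
    field_simp
  · have h3 : vv v w = 1 := by
      have e : w = 1 + (w - 1) := by ring
      rw [e]
      exact Valuation.map_one_add_of_lt _ hw1
    rw [map_mul, h3, hz1, one_mul]

/-- The norm form of a nonsquare unit has even valuation. -/
theorem val_nonsq (hP : Irreducible P) (hv : v.asIdeal = Ideal.span {P})
    {g : k[X]} (hg : ∀ z, ¬ P ∣ z ^ 2 - g) (x z : v.adicCompletion K) :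
    vv v (x ^ 2 - em K v g * z ^ 2) = max (vv v x) (vv v z) ^ 2 := by
  have hg0 : vv v (em K v g) = 1 := by
    rw [vv_em_one hv]
    intro h
    exact hg 0 (by simpa using h)
  have key : ∀ t : v.adicCompletion K, vv v (t ^ 2 - em K v g) = max (vv v t) 1 ^ 2 := by
    intro t
    rcases lt_or_ge 1 (vv v t) with h | h
    · rw [max_eq_left h.le, ← map_pow]
      apply Valuation.map_sub_eq_of_lt_left
      rw [hg0, map_pow]
      exact one_lt_pow₀ h two_ne_zero
    · rw [max_eq_right h, one_pow]
      have h1 : vv v (t ^ 2 - em K v g) ≤ 1 := by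
        refine (Valuation.map_sub _ _ _).trans (max_le ?_ hg0.le)
        rw [map_pow]
        exact pow_le_one₀ zero_le h
      refine le_antisymm h1 (not_lt.1 fun h3 => ?_)
      obtain ⟨r, hr⟩ := dense_R v t h
      change vv v (t - em K v r) < 1 at hr
      refine hg r ?_
      rw [← vv_em_lt (K := K) hv]
      have e : em K v (r ^ 2 - g) =
          (t ^ 2 - em K v g) - (t - em K v r) * (t + em K v r) := by
        rw [map_sub, map_pow]; ring
      rw [e]
      refine lt_of_le_of_lt (Valuation.map_sub _ _ _) (max_lt h3 ?_)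
      rw [map_mul]
      have h4 : vv v (t + em K v r) ≤ 1 :=
        (Valuation.map_add _ _ _).trans (max_le h (vv_em_le r))
      exact mul_lt_one_of_lt_of_le hr h4
  by_cases hz : z = 0
  · subst hz
    have hm : max (vv v x) (vv v (0 : v.adicCompletion K)) = vv v x := by
      rw [map_zero]
      exact max_eq_left zero_le
    rw [hm]
    simp
  · have e : x ^ 2 - em K v g * z ^ 2 = z ^ 2 * ((x / z) ^ 2 - em K v g) := by
      field_simp
    rw [e, map_mul, key, map_pow, ← mul_pow]
    congr 1
    have hz' : vv v z ≠ 0 := (Valuation.ne_zero_iff _).2 hz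
    rw [mul_max, map_div₀, mul_one, mul_div_cancel₀ _ hz']

/-- Parity. -/
theorem par {a b : WithZero (Multiplicative ℤ)} (h : a ^ 2 = exp (-1 : ℤ) * b ^ 2) :
    a = 0 ∧ b = 0 := by
  by_cases hb : b = 0
  · subst hb
    rw [zero_pow two_ne_zero, mul_zero] at h
    exact ⟨by simpa using h, rfl⟩
  · exfalso
    have ha : a ≠ 0 := by
      rintro rfl
      rw [zero_pow two_ne_zero] at h
      exact mul_ne_zero exp_ne_zero (pow_ne_zero 2 hb) h.symm
    rw [← exp_log ha, ← exp_log hb, ← exp_nsmul, ← exp_nsmul, ← exp_add, exp_inj] at h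
    simp only [nsmul_eq_mul] at h
    push_cast at h
    omega

end pol

end Pool.Agent.N352.PP
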