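import Pool.Agent.N352.PP.Loc

/-!
# The tame symbol and isotropy

Project PP (helper874); this file by helper352: `tame : S_TAME`.
-/

set_option autoImplicit false
set_option linter.all false

open Polynomial IsDedekindDomain WithZero
open scoped Classical

namespace Pool.Agent.N352.PP

open Pool.Agent.N874.PP

section

variable {k K : Type} [Field k] [Field K] [Algebra k[X] K] [IsFractionRing k[X] K]
  {P : k[X]} {v : HeightOneSpectrum k[X]}

/-- Over the residue field a binary form of unit discriminant represents everything. -/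
theorem rep_mod [Finite k] (hP : Irreducible P) (h2 : (2 : k) ≠ 0) {d e f : k[X]} (hd : ¬ P ∣ d)
    (he : ¬ P ∣ e) : ∃ x y : k[X], P ∣ d * x ^ 2 + e * y ^ 2 - f := by
  haveI : Fact (Irreducible P) := ⟨hP⟩
  have hP0 : P ≠ 0 := hP.ne_zero
  letI : Field (AdjoinRoot P) := AdjoinRoot.instField
  haveI : Finite (AdjoinRoot P) := by
    haveI : Module.Finite k (AdjoinRoot P) := (AdjoinRoot.powerBasis hP0).finite
    exact Module.finite_of_finite k
  haveI : Fintype (AdjoinRoot P) := Fintype.ofFinite _
  have hc : ringChar (AdjoinRoot P) ≠ 2 := by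
    intro h
    have h3 : (2 : AdjoinRoot P) = 0 := by
      haveI : CharP (AdjoinRoot P) 2 := by rw [← h]; exact ringChar.charP _
      exact_mod_cast CharP.cast_eq_zero (AdjoinRoot P) 2
    have h4 : (AdjoinRoot.of P) (2 : k) = 0 := by rw [map_ofNat]; exact h3
    exact h2 ((map_eq_zero _).1 h4)
  have hmk : ∀ r : k[X], ¬ P ∣ r → AdjoinRoot.mk P r ≠ 0 := fun r hr h =>
    hr (AdjoinRoot.mk_eq_zero.1 h)
  have hd' := hmk d hd
  have he' := hmk e he
  obtain ⟨a, b, hab⟩ := FiniteField.exists_root_sum_quadratic (R := AdjoinRoot P)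
    (f := C (AdjoinRoot.mk P d) * X ^ 2) (g := C (AdjoinRoot.mk P e) * X ^ 2 -
      C (AdjoinRoot.mk P f)) (by
      rw [degree_C_mul_X_pow 2 hd']; rfl) (by
      rw [degree_sub_C]
      · rw [degree_C_mul_X_pow 2 he']; rfl
      · rw [degree_C_mul_X_pow 2 he']; norm_num) (by
      have := FiniteField.odd_card_of_char_ne_two hc
      exact this)
  obtain ⟨x, rfl⟩ := AdjoinRoot.mk_surjective a
  obtain ⟨y, rfl⟩ := AdjoinRoot.mk_surjective b
  refine ⟨x, y, ?_⟩
  rw [← AdjoinRoot.mk_eq_zero]
  simp only [eval_mul, eval_C, eval_pow, eval_X, eval_sub] at hab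
  rw [map_sub, map_add, map_mul, map_mul, map_pow, map_pow]
  linear_combination hab

end

/-- The tame symbol and isotropy. -/
theorem tame : S_TAME := by
  intro k K _ _ _ _ _ h2 P v hP hv d e hd0 he0 hsd hse
  have hP0 : P ≠ 0 := hP.ne_zero
  have hPp : Prime P := hP.prime
  set E := em K v with hE
  have inj : ∀ r : k[X], r ≠ 0 → E r ≠ 0 := by
    intro r hr
    have h1 : algebraMap k[X] K r ≠ 0 := by
      intro h
      exact hr (IsFractionRing.injective k[X] K (by rw [h, map_zero]))
    exact (_root_.map_ne_zero (algebraMap K (v.adicCompletion K))).2 h1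
  have hvP : vv v (E P) = exp (-1 : ℤ) := vv_em_P hP0 hv
  have hcoe : ∀ r : k[X], algebraMap K (v.adicCompletion K) (algebraMap k[X] K r) = E r :=
    fun r => rfl
  simp only [hcoe]
  have hEd := inj d hd0
  have hEe := inj e he0
  have sqf : ∀ g : k[X], Squarefree g → P ∣ g → ∃ g', g = P * g' ∧ ¬ P ∣ g' := by
    rintro g hg ⟨g', rfl⟩
    refine ⟨g', rfl, ?_⟩
    rintro ⟨g'', rfl⟩
    exact hP.not_isUnit (hg P ⟨g'', by ring⟩)
  have vne : ∀ x : v.adicCompletion K, vv v x = 0 → x = 0 := fun x h =>
    (Valuation.zero_iff _).1 h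
  -- one of them divisible by `P`
  have one : ∀ d e : k[X], d ≠ 0 → e ≠ 0 → Squarefree d → P ∣ d → ¬ P ∣ e →
      ((∃ x y z : v.adicCompletion K, ¬ (x = 0 ∧ y = 0 ∧ z = 0) ∧
        E d * x ^ 2 + E e * y ^ 2 - E (d * e) * z ^ 2 = 0) ↔ ¬ ∀ z, ¬ P ∣ z ^ 2 - e) := by
    intro d e hd0 he0 hsd hd he
    have hEd := inj d hd0
    have hEe := inj e he0
    constructor
    · rintro ⟨x, y, z, hne, h⟩ hall
      apply hne
      obtain ⟨d', rfl, hd'⟩ := sqf d hsd hd
      have hd1 : vv v (E d') = 1 := (vv_em_one hv d').2 hd'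
      have he1 : vv v (E e) = 1 := (vv_em_one hv e).2 he
      have h1 : E e * y ^ 2 = - (E P * E d' * (x ^ 2 - E e * z ^ 2)) := by
        simp only [map_mul] at h
        linear_combination h
      have h3 := congrArg (vv v) h1
      rw [map_mul, map_pow, he1, one_mul, Valuation.map_neg, map_mul, map_mul, hd1, mul_one,
        hvP, val_nonsq hP hv hall] at h3
      obtain ⟨h4, h5⟩ := par h3
      have h6 : vv v x = 0 := le_antisymm ((le_max_left _ _).trans h5.le) zero_le
      have h7 : vv v z = 0 := le_antisymm ((le_max_right _ _).trans h5.le) zero_le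
      exact ⟨vne _ h6, vne _ h4, vne _ h7⟩
    · intro h
      push Not at h
      obtain ⟨z, hz⟩ := h
      obtain ⟨w, hw, hw1⟩ := sq_of_res (K := K) hP hv h2 he hz
      refine ⟨w, 0, 1, ?_, ?_⟩
      · intro h
        exact one_ne_zero h.2.2
      · rw [hw, map_mul]
        ring
  by_cases hd : P ∣ d
  · obtain ⟨d', rfl, hd'⟩ := sqf d hsd hd
    by_cases he : P ∣ e
    · obtain ⟨e', rfl, he'⟩ := sqf e hse he
      have hEP := inj P hP0
      have hEd' : E d' ≠ 0 := inj d' (by rintro rfl; exact hd' (dvd_zero _))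
      have hEe' : E e' ≠ 0 := inj e' (by rintro rfl; exact he' (dvd_zero _))
      have hd1 : vv v (E d') = 1 := (vv_em_one hv d').2 hd'
      have he1 : vv v (E e') = 1 := (vv_em_one hv e').2 he'
      have hH : HBad P (P * d') (P * e') ↔ ∀ z, ¬ P ∣ z ^ 2 + d' * e' := by
        constructor
        · rintro (⟨-, h, -⟩ | ⟨h, -, -⟩ | ⟨d'', e'', h3, h4, h5⟩)
          · exact absurd (dvd_mul_right _ _) h
          · exact absurd (dvd_mul_right _ _) h
          · have := mul_left_cancel₀ hP0 h3
            have h6 := mul_left_cancel₀ hP0 h4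
            subst this h6
            exact h5
        · intro h
          exact Or.inr (Or.inr ⟨d', e', rfl, rfl, h⟩)
      rw [hH]
      constructor
      · rintro ⟨x, y, z, hne, h⟩ hall
        apply hne
        have hall' : ∀ z, ¬ P ∣ z ^ 2 - (-(d' * e')) := by
          intro z; rw [sub_neg_eq_add]; exact hall z
        have h1 : (E d' * x) ^ 2 - E (-(d' * e')) * y ^ 2 = E P * E d' ^ 2 * E e' * z ^ 2 := by
          have h8 : E P * (E d' * x ^ 2 + E e' * y ^ 2 - E P * E d' * E e' * z ^ 2) = 0 := by
            rw [map_mul, map_mul, map_mul, map_mul, map_mul] at h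
            linear_combination h
          have h9 := (mul_eq_zero.1 h8).resolve_left hEP
          rw [map_neg, map_mul]
          linear_combination E d' * h9
        have h3 := congrArg (vv v) h1
        rw [val_nonsq hP hv hall', map_mul, map_mul, map_mul, map_mul, map_pow, map_pow, hd1,
          he1, hvP, one_pow, mul_one, mul_one, one_mul] at h3
        obtain ⟨h4, h5⟩ := par h3
        have h6 : vv v x = 0 := le_antisymm ((le_max_left _ _).trans h4.le) zero_le
        have h7 : vv v y = 0 := le_antisymm ((le_max_right _ _).trans h4.le) zero_le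
        exact ⟨vne _ h6, vne _ h7, vne _ h5⟩
      · intro h
        push Not at h
        obtain ⟨z, hz⟩ := h
        have hg : ¬ P ∣ -(d' * e') := by
          rw [dvd_neg]
          intro h
          rcases hPp.dvd_or_dvd h with h | h
          · exact hd' h
          · exact he' h
        obtain ⟨w, hw, hw1⟩ := sq_of_res (K := K) (z := z) hP hv h2 hg
          (by rw [sub_neg_eq_add]; exact hz)
        refine ⟨w, E d', 0, ?_, ?_⟩
        · intro h
          exact hEd' h.2.1
        · rw [hw, map_neg, map_mul, map_mul, map_mul]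
          ring
    · rw [one (P * d') e hd0 he0 hsd hd he]
      have hH : HBad P (P * d') e ↔ ∀ z, ¬ P ∣ z ^ 2 - e := by
        constructor
        · rintro (⟨-, -, h⟩ | ⟨h, -, -⟩ | ⟨d'', e'', h3, h4, h5⟩)
          · exact h
          · exact absurd (dvd_mul_right _ _) h
          · exact absurd ⟨e'', h4⟩ he
        · intro h
          exact Or.inl ⟨dvd_mul_right _ _, he, h⟩
      rw [hH]
  · by_cases he : P ∣ e
    · have h := one e d he0 hd0 hse he hd
      have hH : HBad P d e ↔ ∀ z, ¬ P ∣ z ^ 2 - d := by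
        constructor
        · rintro (⟨h, -, -⟩ | ⟨-, -, h⟩ | ⟨d'', e'', h3, h4, h5⟩)
          · exact absurd h hd
          · exact h
          · exact absurd ⟨d'', h3⟩ hd
        · intro h
          exact Or.inr (Or.inl ⟨hd, he, h⟩)
      rw [hH, ← h]
      constructor
      · rintro ⟨x, y, z, hne, h⟩
        refine ⟨y, x, z, fun h => hne ⟨h.2.1, h.1, h.2.2⟩, ?_⟩
        rw [mul_comm e d]
        linear_combination h
      · rintro ⟨x, y, z, hne, h⟩
        refine ⟨y, x, z, fun h => hne ⟨h.2.1, h.1, h.2.2⟩, ?_⟩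
        rw [mul_comm e d] at h
        linear_combination h
    · have hH : ¬ HBad P d e := by
        rintro (⟨h, -, -⟩ | ⟨-, h, -⟩ | ⟨d'', e'', h3, h4, h5⟩)
        · exact hd h
        · exact he h
        · exact hd ⟨d'', h3⟩
      refine ⟨fun _ => hH, fun _ => ?_⟩
      obtain ⟨x, y, hxy⟩ := rep_mod (f := d * e) hP h2 hd he
      have hd1 : vv v (E d) = 1 := (vv_em_one hv d).2 hd
      have he1 : vv v (E e) = 1 := (vv_em_one hv e).2 he
      obtain ⟨z, hz, hz1⟩ := sqrt_one v (val_two hv hP h2)
        ((E d * E x ^ 2 + E e * E y ^ 2) / (E d * E e)) (by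
        have e1 : (E d * E x ^ 2 + E e * E y ^ 2) / (E d * E e) - 1 =
            E (d * x ^ 2 + e * y ^ 2 - d * e) / (E d * E e) := by
          rw [map_sub, map_add, map_mul, map_mul, map_mul, map_pow, map_pow]
          field_simp
        rw [e1, map_div₀, map_mul, hd1, he1, one_mul, div_one]
        exact (vv_em_lt hv _).2 hxy)
      refine ⟨E x, E y, z, ?_, ?_⟩
      · rintro ⟨-, -, rfl⟩
        rw [zero_sub, Valuation.map_neg, map_one] at hz1
        exact lt_irrefl _ hz1
      · rw [hz, map_mul]
        field_simp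
        ring

end Pool.Agent.N352.PP
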